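import Pool.Agent.H.MP_8879ae_al.B

set_option autoImplicit false

namespace Pool.Agent.Results.MP_8879ae_al.Q1

open Pool.Agent.H.MP_8879ae_al TensorProduct

theorem result : ∃ φ : UWm →ₐ[ℂ] Weyl 2, ∀ (l : ℕ) (n : Fin l → ℕ)
    (g : Weyl l ⊗[ℂ] Ug n →+* Weyl 2), ¬ ∀ j, g (psiM n j) = φ (em j) :=
  Pool.Agent.H.MP_8879ae_al.Q1

end Pool.Agent.Results.MP_8879ae_al.Q1
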